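import Pool.Agent.Helper16K9.Hom.Fin

set_option autoImplicit false

/-!
# Homogeneous circuits for `m × m` matrices have `(14 - o(1)) m²` gates over every field

Circuits (`Circuit`, `Circuit.poly`, `Circuit.size`, `Circuit.nonscalarCount`) are defined in
`Pool.Agent.H522R2.Circuit`; the variables `Vars m` and the entries `entry F m i j` of the product of
two generic `m × m` matrices in `Pool.Agent.H88R3.MM.Circ`; `Homog`, `addGates` in
`Pool.Agent.Helper16K9.Hom.Net` and `Pool.Agent.Helper16K9.Hom.Fin`.
-/

namespace Pool.Agent.Results.MP_e72dc0_lc.HomogeneousCircuits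

open Pool.Agent.H88R3.MM Pool.Agent.H522R2 Pool.Agent.Helper16K9.Hom

/-- the circuit has the entries of the product of two generic `m × m` matrices among the
polynomials which it computes -/
def Computes {F : Type*} [Field F] {m : ℕ} (C : Circuit F (Vars m)) : Prop :=
  ∀ i j, ∃ k : Fin C.nodes, C.poly k = entry F m i j

universe u

/-- Let `C` be an arithmetic circuit over a field which computes the entries of the product of two
generic `m × m` matrices, and let every node of `C` compute a homogeneous polynomial (for instance,
let `C` be a bilinear algorithm). Then `C` has at least `(14 - δ) m ^ 2` gates if `m ≥ m₀(δ)`, even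
if multiplications by constants are not counted; `m₀` does not depend on the field. -/
theorem result (δ : ℝ) (hδ : 0 < δ) : ∃ m₀ : ℕ, ∀ (F : Type u) [Field F] (m : ℕ)
    (C : Circuit F (Vars m)), m₀ ≤ m → Homog C → Computes C →
    (14 - δ) * (m : ℝ) ^ 2 ≤ addGates C + C.nonscalarCount ∧
      addGates C + C.nonscalarCount ≤ C.size := by
  obtain ⟨m₀, h⟩ := homog_bound.{u} δ hδ
  exact ⟨m₀, fun F _ m C hm hH hC => ⟨h F m C hm hH hC, add_nonscalar_le C⟩⟩

end Pool.Agent.Results.MP_e72dc0_lc.HomogeneousCircuits
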